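import Pool.Agent.W208.TL.Stm
import Pool.Agent.Helper256.KM.Mertens

/-! # TL-NEAR -/

set_option autoImplicit false

namespace Pool.Agent.W290.TL

open Finset Filter Pool.Agent.W208.TL

lemma mem_PP {w y p : ℕ} : p ∈ PP w y ↔ (w < p ∧ p ≤ y) ∧ p.Prime := by
  unfold PP; rw [mem_filter, mem_Ioc]

/-- a number is the product of its parts -/
lemma eq_sm_mul {y X n : ℕ} (hy : y ≤ X) (hn0 : n ≠ 0) (hn : n ≤ X) :
    n = sm 0 y n * sm y X n := by
  unfold sm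
  have hdis : Disjoint (PP 0 y) (PP y X) := by
    rw [Finset.disjoint_left]
    intro p h1 h2
    have := (mem_PP.mp h1).1.2
    have := (mem_PP.mp h2).1.1
    omega
  have hun : PP 0 y ∪ PP y X = PP 0 X := by
    ext p
    simp only [mem_union, mem_PP]
    constructor
    · rintro (h | h)
      · exact ⟨⟨h.1.1, h.1.2.trans hy⟩, h.2⟩
      · exact ⟨⟨h.2.pos, h.1.2⟩, h.2⟩
    · intro h
      by_cases hp : p ≤ y
      · exact Or.inl ⟨⟨h.1.1, hp⟩, h.2⟩
      · exact Or.inr ⟨⟨by omega, h.1.2⟩, h.2⟩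
  rw [← prod_union hdis, hun]
  have h1 : ∏ l ∈ n.primeFactors, l ^ n.factorization l = n := Nat.prod_factorization_pow_eq_self hn0
  have h2 : ∏ l ∈ n.primeFactors, l ^ n.factorization l = ∏ l ∈ PP 0 X, l ^ n.factorization l := by
    refine prod_subset ?_ ?_
    · intro p hp
      have hp1 := Nat.prime_of_mem_primeFactors hp
      have hp2 := Nat.le_of_mem_primeFactors hp
      exact mem_PP.mpr ⟨⟨hp1.pos, hp2.trans hn⟩, hp1⟩
    · intro p _ hp2
      have : n.factorization p = 0 := by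
        rw [← Finsupp.notMem_support_iff]; exact hp2
      rw [this, pow_zero]
  rw [← h2, h1]

/-- a multiplicative function on a product of prime powers -/
lemma mul_prod {u : ℕ → ℂ} (hu : Mul1 u) (e : ℕ → ℕ) (S : Finset ℕ) (hS : ∀ p ∈ S, p.Prime) :
    u (∏ l ∈ S, l ^ e l) = ∏ l ∈ S, u (l ^ e l) := by
  induction S using Finset.induction_on with
  | empty => simpa using hu.2.1
  | insert a S ha ih =>
    rw [prod_insert ha, prod_insert ha, hu.2.2, ih (fun p hp => hS p (mem_insert_of_mem hp))]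
    apply Nat.Coprime.pow_left
    apply Nat.Coprime.prod_right
    intro p hp
    apply Nat.Coprime.pow_right
    rw [Nat.coprime_primes (hS a (mem_insert_self _ _)) (hS p (mem_insert_of_mem hp))]
    rintro rfl
    exact ha hp

lemma prod_sub_one {z : ℕ → ℂ} (hz : ∀ l, ‖z l‖ ≤ 1) (S : Finset ℕ) :
    ‖∏ l ∈ S, z l - 1‖ ≤ ∑ l ∈ S, ‖z l - 1‖ := by
  induction S using Finset.induction_on with
  | empty => simp
  | insert a S ha ih =>
    rw [prod_insert ha, sum_insert ha]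
    have e : z a * ∏ l ∈ S, z l - 1 = (z a - 1) + z a * (∏ l ∈ S, z l - 1) := by ring
    rw [e]
    refine (norm_add_le _ _).trans ?_
    rw [norm_mul]
    have h1 : ‖z a‖ * ‖∏ l ∈ S, z l - 1‖ ≤ 1 * ‖∏ l ∈ S, z l - 1‖ :=
      mul_le_mul_of_nonneg_right (hz a) (norm_nonneg _)
    linarith

lemma pow_bound {u : ℕ → ℂ} (hu : Mul1 u) (n l : ℕ) (hn0 : n ≠ 0) (hl : l.Prime) :
    ‖u (l ^ n.factorization l) - 1‖ ≤
      (if l ∣ n then ‖u l - 1‖ else 0) + (if l ^ 2 ∣ n then 2 else 0) := by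
  rcases Nat.lt_or_ge (n.factorization l) 2 with h | h
  · have h01 : n.factorization l = 0 ∨ n.factorization l = 1 := by omega
    rcases h01 with h0 | h1
    · rw [h0, pow_zero, hu.2.1, sub_self, norm_zero]
      positivity
    · have hd : l ∣ n := (hl.dvd_iff_one_le_factorization hn0).mpr (by omega)
      rw [h1, pow_one, if_pos hd]
      have : (0 : ℝ) ≤ (if l ^ 2 ∣ n then 2 else 0) := by positivity
      linarith
  · have hd : l ^ 2 ∣ n := (hl.pow_dvd_iff_le_factorization hn0).mpr h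
    rw [if_pos hd]
    have h1 : ‖u (l ^ n.factorization l) - 1‖ ≤ 2 := by
      refine (norm_sub_le _ _).trans ?_
      rw [norm_one]
      have := hu.1 (l ^ n.factorization l)
      linarith
    have h2 : (0 : ℝ) ≤ (if l ∣ n then ‖u l - 1‖ else 0) := by positivity
    linarith

lemma pointwise {u : ℕ → ℂ} (hu : Mul1 u) {y X n : ℕ} (hy : y ≤ X) (hn0 : n ≠ 0) (hn : n ≤ X) :
    ‖u n - u (sm 0 y n)‖ ≤ ∑ l ∈ PP y X,
      ((if l ∣ n then ‖u l - 1‖ else 0) + (if l ^ 2 ∣ n then 2 else 0)) := by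
  have hcop : Nat.Coprime (sm 0 y n) (sm y X n) := by
    unfold sm
    apply Nat.Coprime.prod_left
    intro p hp
    apply Nat.Coprime.prod_right
    intro q hq
    apply Nat.Coprime.pow
    rw [Nat.coprime_primes (mem_PP.mp hp).2 (mem_PP.mp hq).2]
    rintro rfl
    have := (mem_PP.mp hp).1.2
    have := (mem_PP.mp hq).1.1
    omega
  have e1 : u n = u (sm 0 y n) * u (sm y X n) := by
    conv_lhs => rw [eq_sm_mul hy hn0 hn]
    exact hu.2.2 _ _ hcop
  have e2 : u n - u (sm 0 y n) = u (sm 0 y n) * (∏ l ∈ PP y X, u (l ^ n.factorization l) - 1) := by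
    rw [e1]
    have : u (sm y X n) = ∏ l ∈ PP y X, u (l ^ n.factorization l) := by
      unfold sm
      exact mul_prod hu _ _ (fun p hp => (mem_PP.mp hp).2)
    rw [this]; ring
  rw [e2, norm_mul]
  have h1 : ‖u (sm 0 y n)‖ * ‖∏ l ∈ PP y X, u (l ^ n.factorization l) - 1‖
      ≤ 1 * ‖∏ l ∈ PP y X, u (l ^ n.factorization l) - 1‖ :=
    mul_le_mul_of_nonneg_right (hu.1 _) (norm_nonneg _)
  refine h1.trans ?_
  rw [one_mul]
  refine (prod_sub_one (fun l => hu.1 _) _).trans ?_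
  exact sum_le_sum fun l hl => pow_bound hu n l hn0 (mem_PP.mp hl).2

lemma count_dvd (X m : ℕ) (hm : 0 < m) :
    (((Ioc 0 X).filter (fun n => m ∣ n)).card : ℝ) ≤ X / m := by
  rw [Nat.Ioc_filter_dvd_card_eq_div]
  exact Nat.cast_div_le

lemma sum_bound {u : ℕ → ℂ} (hu : Mul1 u) {y X : ℕ} (hy0 : y ≠ 0) (hy : y ≤ X) :
    ∑ n ∈ Ioc 0 X, ‖u n - u (sm 0 y n)‖ ≤ X * (∑ l ∈ PP y X, ‖u l - 1‖ / l) + X * (2 / y) := by
  calc ∑ n ∈ Ioc 0 X, ‖u n - u (sm 0 y n)‖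
      ≤ ∑ n ∈ Ioc 0 X, ∑ l ∈ PP y X,
        ((if l ∣ n then ‖u l - 1‖ else 0) + (if l ^ 2 ∣ n then 2 else 0)) := by
        refine sum_le_sum fun n hn => ?_
        rw [mem_Ioc] at hn
        exact pointwise hu hy (by omega) hn.2
    _ = ∑ l ∈ PP y X, (((Ioc 0 X).filter (fun n => l ∣ n)).card * ‖u l - 1‖
          + ((Ioc 0 X).filter (fun n => l ^ 2 ∣ n)).card * 2) := by
        rw [sum_comm]
        refine sum_congr rfl fun l _ => ?_
        rw [sum_add_distrib, ← sum_filter, ← sum_filter, sum_const, sum_const, nsmul_eq_mul,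
          nsmul_eq_mul]
    _ ≤ ∑ l ∈ PP y X, ((X : ℝ) / l * ‖u l - 1‖ + (X : ℝ) / (l ^ 2 : ℕ) * 2) := by
        refine sum_le_sum fun l hl => ?_
        have hl0 := (mem_PP.mp hl).2.pos
        refine add_le_add ?_ ?_
        · exact mul_le_mul_of_nonneg_right (count_dvd X l hl0) (norm_nonneg _)
        · exact mul_le_mul_of_nonneg_right (count_dvd X (l ^ 2) (pow_pos hl0 2)) (by norm_num)
    _ = X * (∑ l ∈ PP y X, ‖u l - 1‖ / l) + X * (2 * ∑ l ∈ PP y X, ((l : ℝ) ^ 2)⁻¹) := by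
        rw [sum_add_distrib, mul_sum, mul_sum, mul_sum]
        congr 1
        · refine sum_congr rfl fun l _ => ?_
          ring
        · refine sum_congr rfl fun l _ => ?_
          push_cast
          ring
    _ ≤ X * (∑ l ∈ PP y X, ‖u l - 1‖ / l) + X * (2 / y) := by
        have h1 : ∑ l ∈ PP y X, ((l : ℝ) ^ 2)⁻¹ ≤ ∑ l ∈ Ioc y X, ((l : ℝ) ^ 2)⁻¹ := by
          unfold PP
          exact sum_le_sum_of_subset_of_nonneg (filter_subset _ _) (fun _ _ _ => by positivity)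
        have h2 := sum_Ioc_inv_sq_le_sub (α := ℝ) hy0 hy
        have h3 : (0 : ℝ) ≤ (X : ℝ)⁻¹ := by positivity
        have h4 : 2 * ∑ l ∈ PP y X, ((l : ℝ) ^ 2)⁻¹ ≤ 2 / y := by
          rw [div_eq_mul_inv]; linarith
        have h5 : (X : ℝ) * (2 * ∑ l ∈ PP y X, ((l : ℝ) ^ 2)⁻¹) ≤ X * (2 / y) :=
          mul_le_mul_of_nonneg_left h4 (Nat.cast_nonneg _)
        linarith

lemma normSq_le {z : ℂ} (hz : ‖z‖ ≤ 1) : ‖z - 1‖ ^ 2 ≤ 2 * (1 - z.re) := by
  have h1 : ‖z - 1‖ ^ 2 = (z.re - 1) ^ 2 + z.im ^ 2 := by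
    rw [← Complex.normSq_eq_norm_sq, Complex.normSq_apply]
    simp
    ring
  have h2 : z.re ^ 2 + z.im ^ 2 ≤ 1 := by
    have : ‖z‖ ^ 2 ≤ 1 := pow_le_one₀ (norm_nonneg _) hz
    rw [← Complex.normSq_eq_norm_sq, Complex.normSq_apply] at this
    nlinarith
  rw [h1]; nlinarith

/-- Mertens in an interval -/
lemma mertens_int : ∃ C : ℝ, 0 ≤ C ∧ ∀ (K y X : ℕ), 1 ≤ K → 3 ≤ y → y ≤ X → X ≤ y ^ K →
    ∑ l ∈ PP y X, (1 : ℝ) / l ≤ Real.log K + C := by
  obtain ⟨C, hC⟩ := Pool.Agent.Helper256.KM.mertens_inv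
  have hC0 : 0 ≤ C := (abs_nonneg _).trans (hC 3 le_rfl)
  refine ⟨2 * C, by positivity, ?_⟩
  intro K y X hK hy hyX hXK
  have h1 := abs_le.mp (hC y hy)
  have h2 := abs_le.mp (hC X (hy.trans hyX))
  have e : ∑ p ∈ (Icc 1 X).filter Nat.Prime, (1 : ℝ) / p
      = ∑ p ∈ (Icc 1 y).filter Nat.Prime, (1 : ℝ) / p + ∑ l ∈ PP y X, (1 : ℝ) / l := by
    have hd : Disjoint ((Icc 1 y).filter Nat.Prime) (PP y X) := by
      rw [Finset.disjoint_left]
      intro p h1 h2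
      have h3 := (mem_Icc.mp (mem_filter.mp h1).1).2
      have := (mem_PP.mp h2).1.1
      omega
    rw [← sum_union hd]
    refine sum_congr ?_ (fun _ _ => rfl)
    ext p
    simp only [mem_union, mem_PP, mem_filter, mem_Icc]
    constructor
    · rintro ⟨⟨h1, h2⟩, h3⟩
      by_cases hp : p ≤ y
      · exact Or.inl ⟨⟨h1, hp⟩, h3⟩
      · exact Or.inr ⟨⟨by omega, h2⟩, h3⟩
    · rintro (⟨⟨h1, h2⟩, h3⟩ | ⟨⟨h1, h2⟩, h3⟩)
      · exact ⟨⟨h1, h2.trans hyX⟩, h3⟩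
      · exact ⟨⟨h3.pos, h2⟩, h3⟩
  have hyr : (3 : ℝ) ≤ y := by exact_mod_cast hy
  have hKr : (1 : ℝ) ≤ K := by exact_mod_cast hK
  have hXr : (y : ℝ) ≤ X := by exact_mod_cast hyX
  have hly : 0 < Real.log y := Real.log_pos (by linarith)
  have hlX : 0 < Real.log X := Real.log_pos (by linarith)
  have h3 : Real.log X ≤ K * Real.log y := by
    rw [← Real.log_pow]
    exact Real.log_le_log (by linarith) (by exact_mod_cast hXK)
  have h4 : Real.log (Real.log X) ≤ Real.log K + Real.log (Real.log y) := by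
    rw [← Real.log_mul (by positivity) hly.ne']
    exact Real.log_le_log hlX h3
  linarith [h1.1, h2.2, e]

theorem near : NEAR := by
  intro K ε hK hε
  obtain ⟨C, hC0, hC⟩ := mertens_int
  have hKr : (1 : ℝ) ≤ K := by exact_mod_cast hK
  have hlK : 0 ≤ Real.log K := Real.log_nonneg hKr
  set M : ℝ := Real.log K + C + 1 with hM
  have hM0 : 0 < M := by rw [hM]; linarith
  obtain ⟨y1, hy1⟩ := exists_nat_ge (4 / ε)
  refine ⟨ε ^ 2 / (8 * M), by positivity, max 3 y1, ?_⟩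
  intro y X hy hyX hXK u hu hδ
  have hy3 : 3 ≤ y := le_trans (le_max_left _ _) hy
  have hyy1 : y1 ≤ y := le_trans (le_max_right _ _) hy
  have hyr : (3 : ℝ) ≤ y := by exact_mod_cast hy3
  have hsum := sum_bound hu (by omega : y ≠ 0) hyX
  have hme := hC K y X hK hy3 hyX hXK
  -- Cauchy-Schwarz
  have hcs : (∑ l ∈ PP y X, ‖u l - 1‖ / l) ^ 2 ≤ (ε / 2) ^ 2 := by
    have h1 : (∑ l ∈ PP y X, ‖u l - 1‖ / l) ^ 2
        ≤ (∑ l ∈ PP y X, (1 : ℝ) / l) * ∑ l ∈ PP y X, ‖u l - 1‖ ^ 2 / l := by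
      refine sum_sq_le_sum_mul_sum_of_sq_eq_mul _ (fun l _ => by positivity)
        (fun l _ => by positivity) (fun l _ => ?_)
      ring
    have h2 : ∑ l ∈ PP y X, ‖u l - 1‖ ^ 2 / l ≤ 2 * (ε ^ 2 / (8 * M)) := by
      have h3 : ∑ l ∈ PP y X, ‖u l - 1‖ ^ 2 / l ≤ 2 * ∑ l ∈ PP y X, (1 - (u l).re) / l := by
        rw [mul_sum]
        refine sum_le_sum fun l _ => ?_
        rw [← mul_div_assoc]
        exact div_le_div_of_nonneg_right (normSq_le (hu.1 l)) (Nat.cast_nonneg _)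
      linarith
    have h4 : 0 ≤ ∑ l ∈ PP y X, ‖u l - 1‖ ^ 2 / l := sum_nonneg fun l _ => by positivity
    have h5 : ∑ l ∈ PP y X, (1 : ℝ) / l ≤ M := by rw [hM]; linarith
    calc _ ≤ (∑ l ∈ PP y X, (1 : ℝ) / l) * ∑ l ∈ PP y X, ‖u l - 1‖ ^ 2 / l := h1
      _ ≤ M * ∑ l ∈ PP y X, ‖u l - 1‖ ^ 2 / l := mul_le_mul_of_nonneg_right h5 h4
      _ ≤ M * (2 * (ε ^ 2 / (8 * M))) := mul_le_mul_of_nonneg_left h2 hM0.le
      _ = (ε / 2) ^ 2 := by field_simp; ring
  have hle : ∑ l ∈ PP y X, ‖u l - 1‖ / l ≤ ε / 2 :=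
    le_of_sq_le_sq hcs (by positivity)
  have h2y : 2 / (y : ℝ) ≤ ε / 2 := by
    have h6 : 4 / ε ≤ y := hy1.trans (by exact_mod_cast hyy1)
    rw [div_le_iff₀ hε] at h6
    rw [div_le_iff₀ (by linarith)]
    linarith
  have hX0 : (0 : ℝ) ≤ X := Nat.cast_nonneg _
  have h7 := mul_le_mul_of_nonneg_left hle hX0
  have h8 := mul_le_mul_of_nonneg_left h2y hX0
  linarith

end Pool.Agent.W290.TL
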